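import Pool.Agent.H756.RV.FinJ
import Pool.Agent.H756.RP.Fin

/-!
# Random polygons are chiral, and a finite type invariant of every order detects that they are knotted

Library (`Pool.Graph.R_seed8.H832R2.JR.Defs`, `Pool.Graph.R_seed8.H832R3.VJ.Defs`): a knot diagram with
`N` crossings is given by a Gauss word `G : GaussWord N` (the place `G (c, b)` of each of the two passages
`(c, false)`, `(c, true)` of the crossing `c` when one travels once along the knot) and the signs
`w : Fin N → Bool` of the crossings; `fPoly G w` is its normalised Kauffman bracket `f`, a Laurent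
polynomial in `A = T 1`; `moment d F = ∑ k ^ d a_k` for `F = ∑ a_k A ^ k`, that is, `d!` times the coefficient
of `h ^ d` in `F (e ^ h)`; for `F = f` this is a Vassiliev invariant of order at most `d` (Birman, Lin), a
function of the part of degree at most `d` of the Kontsevich invariant.  Mathlib:
`LaurentPolynomial.invert F = F (A⁻¹)`.

`Pool.Agent.H756.RP`:

* `Pt = ℝ × ℝ × ℝ`; a closed polygon is given by its vertices `p : Fin n → Pt`; `nx i` is the vertex after
  the vertex `i`, `ept p i s` the point with the parameter `s` on the edge from `i` to `nx i`, `det p i j`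
  the determinant of the projections `(x, y, z) ↦ (x, y)` of the edges `i` and `j`;
* `Describes p G w`: the projection of the polygon `p` is a knot diagram and `G`, `w` are its Gauss word and
  signs: there are edges `a x` and parameters `t x` for the passages `x` such that the two passages of a
  crossing have the same projection, any two different points of the polygon with the same projection
  are the two passages of a crossing, all passages are interior points of edges, `G` numbers them in their
  order on the polygon, and at every crossing the two edges have different directions and heights and `w`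
  is the usual sign.

Proof.  (1) With probability `1 - O(n ^ (-1/5))` there are, in each of `d` blocks of vertices, at least
`c n ^ (4/5)` vertices such that a small increase `δ` of the height of the vertex changes exactly one
crossing, with an edge in one of `d` further blocks; the blocks are ordered such that the crossings of
different blocks are interlaced.  The uniform part of the law is preserved by the translation of the
heights by `δ` modulo `1`, so one can condition on everything except the choice `height` or `height + δ`
for these vertices.  (2) The `d`-th moment of `f` is of finite type of order `d`, and its value on every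
singular knot with `d` pairwise interlaced double points is
`± d! 4 ^ d (3 ^ d - 3) / 2 ≠ 0` (state sum at `A = 1`, where the three ways to join the strands at a crossing
add up to zero).  (3) A function on a cube whose mixed differences in directions from `d` blocks of `M`
coordinates have a constant nonzero absolute value and product signs takes every value with a
proportion at most `2 M ^ (-1/2^d)` (decoupling and the Littlewood-Offord inequality).
-/

set_option autoImplicit false

namespace Pool.Agent.Results.MP_5f6b43_gt.ChiralPolygons

open MeasureTheory LaurentPolynomial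
open scoped ENNReal
open Pool.Agent.H832R2.JR (GaussWord fPoly)
open Pool.Agent.H832R3.VJ (moment)
open Pool.Agent.H756.RP (Pt Describes)

/-- Let `ρ` be a probability density in space such that `ρ (x, y, z) ≤ h (x, y)` for an integrable
function `h` and `ρ ≥ b > 0` on a nonempty open set.  Let `p` be a closed polygon with `n ≥ 3` independent
vertices with the density `ρ`, and let `f = ∑ a_k A ^ k` be the normalised bracket of its diagram.

* Almost surely the projection of the polygon is a knot diagram.  The polygon is chiral with probability
  `1 - O(n ^ (-1/10))`, and this is detected by `f`: there is a constant `C` such that the probability of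
  `f (A) = f (A⁻¹)` is at most `C n ^ (-1/10)`.
* For every order `d ≥ 3` there is a constant `C` such that for all `n ≥ 3` and all integers `c` the
  probability of `∑ k ^ d a_k = c` is at most `C n ^ (-4 / (5 * 2 ^ d))`.  (This is `d!` times the
  coefficient of `h ^ d` of `f (e ^ h)`, a finite type invariant of order `d`, which for the unknot is
  zero.) -/
theorem result (ρ : Pt → ℝ≥0∞) (hρ : Measurable ρ) (h1 : ∫⁻ q, ρ q = 1) (h : ℝ × ℝ → ℝ≥0∞)
    (hh : Measurable h) (hfin : ∫⁻ q, h q ≠ ∞) (hle : ∀ q, ρ q ≤ h (q.1, q.2.1)) (U : Set Pt)
    (hU : IsOpen U) (hne : U.Nonempty) (b : ℝ≥0∞) (hb : b ≠ 0) (hbU : ∀ q ∈ U, b ≤ ρ q) :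
    (∃ C : ℝ, 0 < C ∧ ∀ n : ℕ, 3 ≤ n →
      (∀ᵐ p ∂(Measure.pi fun _ : Fin n => (volume : Measure Pt).withDensity ρ),
        ∃ (N : ℕ) (G : GaussWord N) (w : Fin N → Bool), Describes p G w) ∧
      (Measure.pi fun _ : Fin n => (volume : Measure Pt).withDensity ρ)
        {p | ∃ (N : ℕ) (G : GaussWord N) (w : Fin N → Bool), Describes p G w ∧
          invert (fPoly G w) = fPoly G w} ≤ ENNReal.ofReal (C * (n : ℝ) ^ (-(1 / 10) : ℝ))) ∧
    ∀ d : ℕ, 3 ≤ d → ∃ C : ℝ, 0 < C ∧ ∀ n : ℕ, 3 ≤ n → ∀ c : ℤ,
      (Measure.pi fun _ : Fin n => (volume : Measure Pt).withDensity ρ)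
        {p | ∃ (N : ℕ) (G : GaussWord N) (w : Fin N → Bool), Describes p G w ∧
          moment d (fPoly G w) = c} ≤
        ENNReal.ofReal (C * (n : ℝ) ^ (-(4 / (5 * 2 ^ d)) : ℝ)) := by
  refine ⟨?_, fun d hd => Pool.Agent.H756.RV.finalJ ρ hρ h1 h hh hfin hle U hU hne b hb hbU d
    (by omega)⟩
  obtain ⟨C, hC, hf⟩ := Pool.Agent.H756.RV.finalJ ρ hρ h1 h hh hfin hle U hU hne b hb hbU 3
    (by norm_num)
  obtain ⟨C', hC', hf'⟩ := Pool.Agent.H756.RP.final ρ hρ h1 h hh hfin hle U hU hne b hb hbU
  refine ⟨C, hC, fun n hn => ⟨(hf' n hn).1, ?_⟩⟩
  have h3 := hf n hn 0
  have e : (-(4 / (5 * 2 ^ 3)) : ℝ) = (-(1 / 10) : ℝ) := by norm_num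
  rw [e] at h3
  refine le_trans (measure_mono ?_) h3
  rintro p ⟨N, G, w, hd, hF⟩
  exact ⟨N, G, w, hd, Pool.Agent.H756.RV.moment3_zero _ hF⟩

end Pool.Agent.Results.MP_5f6b43_gt.ChiralPolygons
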