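import Pool.Agent.H360.KV.Main

/-!
# Nontrivial knots hidden from Vassiliev invariants of order at most `n`, from the quotients of the
braid group with a short series with abelian or small factors, and from the Jones polynomial modulo
the powers of `30 (1 - t^N)`

Sliced diagrams (starting library `Pool.Agent.H835R2.Knot.Defs`): `Word` (words in the elementary
pieces of an oriented diagram, read from top to bottom), `run`, `Front` (the strands below a word),
`IsKnot` (the word is a diagram of an oriented knot), `IsInvariant v` (`v` is an invariant of oriented
knots), `DegreeLE n v` (`v` is a finite type (Vassiliev) invariant of order at most `n`), `circle`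
(the crossingless diagram of the unknot).

Diagrams for the Jones polynomial (starting library `Pool.Agent.H891R2.Jones.Diagram`,
`Pool.Agent.W639.RB.Defs`, `Pool.Agent.Y463.SK.Defs`): `Diagram.fPoly` (the normalised bracket
`(-A^{-3})^{w(D)} ⟨D⟩`, `A = T 1`; it is the Jones polynomial in `t = A^{-4} = T (-4)`),
`Diagram.IsClosed` (the pieces of the diagram fit together to closed oriented curves), `Outer m` (the
part of an oriented diagram outside a box through which `m` strands run, with arbitrary directions),
`Letter m = Bool × Fin (m - 1)` (the letters `σ_i^{±1}`; `(true, i)` is `σ_i`, `(false, i)` its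
inverse), `dia O w` (the diagram with the braid word `w` in the box of `O`), `braidClosure m` (the
outside of the box for the usual closure of braids), `permW` (the permutation of a braid word),
`IsPure` (the permutation is trivial).

From the earlier result `HiddenKnots` of the library (`Helper52_KV`): `Series N n S`
(`S 0 = G ≥ S 1 ≥ ⋯ ≥ S n = 1` is a series of normal subgroups of the group `G` such that each factor
`S j / S (j + 1)` is abelian or has at most `N` elements), `sliced p w` (the `4`-braid word `w` drawn
on the strands `p, p + 1, p + 2, p + 3` of a sliced diagram), `slicedClosure w` (the closure of the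
`4`-braid word `w` as a sliced diagram).

The proof: `Pool.Agent.H360.JK` contains a pure `4`-braid `z` which is `1` modulo `30 (1 - t^N)` in the
Temperley–Lieb algebra (built from explicit words which the kernel checks to be scalar modulo 2, 3, 5
in the Burau representation).  The words `u i` arise from it by iterating
`v ↦ [v^{N!}, w v^{N!} w⁻¹]` with `w = σ_1⁻¹ σ_0⁻¹ σ_1 σ_0⁻¹` and `w = σ_0 σ_1 σ_2` in turn; each step
goes down in all series of subgroups, doubles the order of the Vassiliev invariants which do not see
the word, and squares the modulus.  The closures are told apart by the 7-adic valuation of the trace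
of the Burau matrix at `A = 1/7`; its leading term is a matrix of rank one in all steps.
-/

set_option autoImplicit false

namespace Pool.Agent.Results.MP_5f6b43_gt.HiddenModuloThirty

open LaurentPolynomial Pool.Agent.H891R2.Jones Pool.Agent.W639.RB Pool.Agent.Y463.SK
  Pool.Agent.H835R2.Knot Pool.Agent.Helper52_KV

/-- Put `t = T (-4)`, and let `n`, `k` and `N ≥ 1` be given.  There are pure `4`-braid words
`u 0, u 1, u 2, …` such that for all `i`

* `u i` is mapped to `1` by every homomorphism of the free group on `σ_0, σ_1, σ_2` (hence by every
  homomorphism of the braid group `B_4`) to a group `G` which has a series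
  `G = S 0 ≥ S 1 ≥ ⋯ ≥ S n = 1` of normal subgroups of length `n` such that each factor is abelian or
  has at most `N` elements;
* inserting `u i` at any place of any oriented knot diagram (on any four consecutive strands with any
  directions) gives a knot diagram on which all Vassiliev invariants of order at most `n`, with values
  in any abelian group, have the same values as before;
* inserting `u i` at any place of a braid word drawn in a box of any oriented link diagram (with any
  directions of the four strands) does not change the normalised bracket modulo
  `(30 (1 - t^N))^k`;
* the closure of the `4`-braid `σ_0 σ_1 σ_2 u i` is a knot on which all Vassiliev invariants of order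
  at most `n`, with values in any abelian group, have the same values as on the unknot (here it is
  drawn as a sliced diagram);
* the normalised bracket (the Jones polynomial) of the closure of `σ_0 σ_1 σ_2 u i` (drawn as a closed
  diagram `dia (braidClosure 4) _`; its permutation has a single cycle) is congruent to `1` modulo
  `(30 (1 - t^N))^k`;

and the normalised brackets of these closures are pairwise different (so no two of these knots are
equivalent, and all but at most one of them are nontrivial). -/
theorem result (n N k : ℕ) (hN : 1 ≤ N) :
    ∃ u : ℕ → List (Letter 4),
    (∀ i, IsPure (u i)) ∧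
    (∀ i (G : Type) [Group G] (S : ℕ → Subgroup G), Series N n S →
      ∀ f : Letter 4 → G, (∀ j, f (false, j) = (f (true, j))⁻¹) → ((u i).map f).prod = 1) ∧
    (∀ i (p : ℕ) (x y : Word), IsKnot (x ++ y) → p + 4 ≤ (run x Front.empty).n →
      IsKnot (x ++ sliced p (u i) ++ y) ∧ ∀ (A : Type) [AddCommGroup A] (z : Word → A),
        IsInvariant z → DegreeLE n z → z (x ++ sliced p (u i) ++ y) = z (x ++ y)) ∧
    (∀ i (O : Outer 4) (v w : List (Letter 4)),
      (30 * (1 - T (-4) ^ N) : ℤ[T;T⁻¹]) ^ k ∣
        (dia O (v ++ u i ++ w)).fPoly - (dia O (v ++ w)).fPoly) ∧
    (∀ i, IsKnot (slicedClosure ([(true, 0), (true, 1), (true, 2)] ++ u i)) ∧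
      ∀ (A : Type) [AddCommGroup A] (z : Word → A), IsInvariant z → DegreeLE n z →
        z (slicedClosure ([(true, 0), (true, 1), (true, 2)] ++ u i)) = z circle) ∧
    (∀ i, (dia (braidClosure 4) ([(true, 0), (true, 1), (true, 2)] ++ u i)).IsClosed ∧
      (∀ x y, (permW ([(true, 0), (true, 1), (true, 2)] ++ u i)).SameCycle x y) ∧
      (30 * (1 - T (-4) ^ N) : ℤ[T;T⁻¹]) ^ k ∣
        (dia (braidClosure 4) ([(true, 0), (true, 1), (true, 2)] ++ u i)).fPoly - 1) ∧
    Function.Injective
      (fun i => (dia (braidClosure 4) ([(true, 0), (true, 1), (true, 2)] ++ u i)).fPoly) :=
  Pool.Agent.H360.KV.main n N k hN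

end Pool.Agent.Results.MP_5f6b43_gt.HiddenModuloThirty
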