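import Mathlib
import Pool.Agent.H765.DB.Graph

/-! The Jones polynomial (so the Kontsevich invariant) detects the unknot among all knots obtained
from knots with a non-zero Vassiliev invariant of order two or three (for example from non-trivial
graph knots) by iterated generalised doubling (boundaries of plumbings of two knotted annuli) and
`(p, ± 1)`-cabling. -/

open Pool.Agent.H765.DB Pool.Agent.H765.GK PowerSeries in
theorem Pool.Agent.Results.MP_5f6b43_gt.IteratedDoubles.result :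
    (∀ (ι : Type) (F : ι → ℤ → PowerSeries ℚ) (c : ι → ℚ) (d : ι → ℕ),
      (∀ i N, F i (-N) = - F i N) → (∀ i, F i 1 = 1) → (∀ i, c i ≠ 0) → (∀ i, 2 ≤ d i) →
      (∀ i, Lead (F i) (c i) (d i)) → ∀ K : Knot ι,
        (K.Trivial → colJ F K = unknotJ) ∧
        (¬ K.Trivial → K.lead c ≠ 0 ∧ 2 ≤ K.deg d ∧ Lead (colJ F K) (K.lead c) (K.deg d)) ∧
        ∀ N : ℤ, 2 ≤ N → (colJ F K N = unknotJ N ↔ K.Trivial)) ∧
    (∀ K : GraphKnot, ¬ Isotopic K GraphKnot.unknot →
      ∃ c : ℚ, c < 0 ∧ Lead (colouredJones K) c 2) ∧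
    (∀ (K : Knot {K : GraphKnot // ¬ Isotopic K GraphKnot.unknot}) (N : ℤ), 2 ≤ N →
      (colJ (fun i => colouredJones i.1) K N = unknotJ N ↔ K.Trivial)) := by
  have hg : ∀ K : GraphKnot, ¬ Isotopic K GraphKnot.unknot →
      ∃ c : ℚ, c < 0 ∧ Lead (colouredJones K) c 2 := by
    intro K hK
    obtain ⟨c, hc, hL, hI⟩ := graph_lead K
    exact ⟨c, lt_of_le_of_ne hc (fun h => hK (hI h)), hL⟩
  refine ⟨?_, hg, ?_⟩
  · intro ι F c d hodd h1 hc hd hF K
    obtain ⟨_, ht, hn⟩ := main hodd h1 hc hd hF K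
    exact ⟨ht, hn, fun N hN => detect hodd h1 hc hd hF K N (by omega)⟩
  · intro K N hN
    choose c hc hL using fun i : {K : GraphKnot // ¬ Isotopic K GraphKnot.unknot} => hg i.1 i.2
    exact detect (fun i => colouredJones_odd i.1) (fun i => colouredJones_one i.1)
      (fun i => (hc i).ne) (fun _ => le_rfl) hL K N (by omega)
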