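import Mathlib
import Pool.Agent.H765.SC.All

/-!
# The coloured Jones function detects the unknot in a satellite closed class

The seeds are knots whose coloured Jones functions are different from that of the unknot (and have the standard
properties `Knotlike`), for example all non-trivial graph knots.  From the unknot and the seeds we build
knots by all `(p, q)`-cablings, `p ≥ 2`, connected sums, plumbings `plumb K m L n`, `n ≠ 0`, of the annuli with
cores `K` and `L` and `m` and `n` full twists (`L` the unknot, `n = ± 1`: all twisted and untwisted Whitehead
doubles) and satellites with unknotted patterns of non-zero winding number.  Among all these knots the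
coloured Jones function is that of the unknot exactly for the evident unknots.

The standard properties are proved for cables, connected sums and plumbings.  `Good` asks for two further known
facts, only where they are used: for the connected sum of two knots which both have a trivial Alexander
polynomial, `J(N) / [N]` is a Laurent polynomial for both; and the standard properties hold for the
satellites with a general pattern.  So there is no condition for knots built by cabling and plumbing, and
connected sums with at least one non-trivial Alexander polynomial.
-/

open Pool.Agent.H765.SC Pool.Agent.H765.GK in
theorem Pool.Agent.Results.MP_5f6b43_gt.SatelliteClosure.result :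
    (∀ (ι : Type) (F : ι → ℤ → PowerSeries ℚ), (∀ i, Knotlike (F i)) → (∀ i, F i ≠ unknotJ) →
      ∀ K : Sat ι, K.Good F → (K.jones F = unknotJ ↔ K.Trivial)) ∧
    (∀ G : GraphKnot, Knotlike (colouredJones G)) ∧
    (∀ K : Sat {G : GraphKnot // ¬ Isotopic G GraphKnot.unknot},
      K.Good (fun G => colouredJones G.1) →
        (K.jones (fun G => colouredJones G.1) = unknotJ ↔ K.Trivial)) := by
  refine ⟨fun ι F hF hne K hK => K.detected hF hne hK, knotlike_graph, fun K hK => ?_⟩
  refine K.detected (fun G => knotlike_graph G.1) (fun G h => G.2 ?_) hK
  refine (graph_main G.1 GraphKnot.unknot).mp fun N n => ?_
  have h' : colouredJones G.1 = unknotJ := h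
  rw [h']
  rfl
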